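import Pool.Agent.H699.T.Unit

/-!
# Assembly of the dense stage
-/

set_option autoImplicit false

namespace Pool.Agent.H388.T.ST2

open Finset Classical
open Pool.Agent.H699.T

theorem ex_le {Ω : Type} [Fintype Ω] (f : Ω → ℝ) (c : ℝ) (hc : 0 ≤ c) (h : ∀ ω, f ω ≤ c) :
    ex f ≤ c := by
  unfold ex
  apply div_le_of_le_mul₀ (by positivity) hc
  calc ∑ ω, f ω ≤ ∑ ω : Ω, c := Finset.sum_le_sum (fun ω _ => h ω)
    _ = c * Fintype.card Ω := by simp [mul_comm]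

theorem pr_fub1 (hb : S_EXBASIC) {Ω Ω' : Type} [Fintype Ω] [Fintype Ω'] (P : Ω → Ω' → Prop)
    (p : ℝ) (hp : 0 ≤ p) (h : ∀ ω, pr (fun ω' => P ω ω') ≤ p) :
    pr (fun ω : Ω × Ω' => P ω.1 ω.2) ≤ p := by
  obtain ⟨_, _, _, _, _, hf1, _, _, _, _, _, _⟩ := hb
  unfold pr at *
  rw [hf1]
  exact ex_le _ _ hp h

theorem pr_fub2 (hb : S_EXBASIC) {Ω Ω' : Type} [Fintype Ω] [Fintype Ω'] (P : Ω → Ω' → Prop)
    (p : ℝ) (hp : 0 ≤ p) (h : ∀ ω', pr (fun ω => P ω ω') ≤ p) :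
    pr (fun ω : Ω × Ω' => P ω.1 ω.2) ≤ p := by
  obtain ⟨_, _, _, _, _, _, hf2, _, _, _, _, _⟩ := hb
  unfold pr at *
  rw [hf2]
  exact ex_le _ _ hp h

theorem pr_markov (hb : S_EXBASIC) {Ω : Type} [Fintype Ω] (f : Ω → ℝ) (c m p : ℝ) (hc : 0 < c)
    (hf : ∀ ω, 0 ≤ f ω) (hm : ex f ≤ m) (hp : m ≤ p * c) : pr (fun ω => c ≤ f ω) ≤ p := by
  obtain ⟨_, _, _, _, _, _, _, hM, _, _, _, _⟩ := hb
  refine (hM Ω f c hc hf).trans ?_
  rw [div_le_iff₀ hc]
  linarith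

/-- Both caps as a function of the hypothesis. -/
noncomputable def cp {N : ℕ} (Kp : ℕ) (d : Fin N → Fin N → ℕ) (B : Finset (Fin N))
    (h : Fin N → ℕ) : Fin N → ℕ := fun y => min (c1 Kp d h y) (c2 Kp d B (c1 Kp d h) y)

/-- Anchored units. -/
noncomputable def F1 {N : ℕ} (s : US N) (Kp : ℕ) (B : Finset (Fin N)) (h : Fin N → ℕ)
    (l : Fin N) : ℝ := if s.anch (cp Kp s.d B h) l then 1 else 0

/-- Weight of the unit optimum. -/
noncomputable def F2 {N : ℕ} (s : US N) (Kp : ℕ) (B : Finset (Fin N)) (h : Fin N → ℕ)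
    (l : Fin N) : ℝ := if s.anch (cp Kp s.d B h) l then 0 else
      ((∑ v ∈ s.piZ (cp Kp s.d B h) l, s.w v : ℕ) : ℝ)

/-- Weight of `Z'` in a unit. -/
noncomputable def gg {N : ℕ} (s : US N) (Z' : Finset (Fin N)) (l : Fin N) : ℝ :=
  ((∑ v ∈ Z' ∩ s.un l, s.w v : ℕ) : ℝ)

theorem F1_nn {N : ℕ} (s : US N) (Kp : ℕ) (B : Finset (Fin N)) (h : Fin N → ℕ) (l : Fin N) :
    0 ≤ F1 s Kp B h l := by
  unfold F1; split_ifs <;> norm_num

theorem F1_le {N : ℕ} (s : US N) (Kp : ℕ) (B : Finset (Fin N)) (h : Fin N → ℕ) (l : Fin N) :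
    F1 s Kp B h l ≤ 1 := by
  unfold F1; split_ifs <;> norm_num

theorem F2_nn {N : ℕ} (s : US N) (Kp : ℕ) (B : Finset (Fin N)) (h : Fin N → ℕ) (l : Fin N) :
    0 ≤ F2 s Kp B h l := by
  unfold F2; split_ifs
  · exact le_refl _
  · exact Nat.cast_nonneg _

theorem F2_le (hu : S_USB) {N : ℕ} (s : US N) {k M Kp : ℕ} (hs : s.Ok k M Kp)
    (B : Finset (Fin N)) (h : Fin N → ℕ) (l : Fin N) :
    F2 s Kp B h l ≤ (k : ℝ) * M + 1 := by
  obtain ⟨_, _, hpi, _, hun, _, _, _⟩ := hu N s k M Kp hs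
  unfold F2; split_ifs
  · positivity
  · have h1 : ∑ v ∈ s.piZ (cp Kp s.d B h) l, s.w v ≤ k * M :=
      (Finset.sum_le_sum_of_subset (hpi _ l)).trans (hun l)
    have h2 : ((∑ v ∈ s.piZ (cp Kp s.d B h) l, s.w v : ℕ) : ℝ) ≤ ((k * M : ℕ) : ℝ) := by
      exact_mod_cast h1
    push_cast at h2 ⊢
    linarith

theorem gg_nn {N : ℕ} (s : US N) (Z' : Finset (Fin N)) (l : Fin N) : 0 ≤ gg s Z' l :=
  Nat.cast_nonneg _

theorem gg_le (hu : S_USB) {N : ℕ} (s : US N) {k M Kp : ℕ} (hs : s.Ok k M Kp)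
    (Z' : Finset (Fin N)) (l : Fin N) : gg s Z' l ≤ (k : ℝ) * M + 1 := by
  obtain ⟨_, _, _, _, hun, _, _, _⟩ := hu N s k M Kp hs
  unfold gg
  have h1 : ∑ v ∈ Z' ∩ s.un l, s.w v ≤ k * M :=
    (Finset.sum_le_sum_of_subset Finset.inter_subset_right).trans (hun l)
  have h2 : ((∑ v ∈ Z' ∩ s.un l, s.w v : ℕ) : ℝ) ≤ ((k * M : ℕ) : ℝ) := by
    exact_mod_cast h1
  push_cast at h2 ⊢
  linarith

theorem gg_sum (hu : S_USB) {N : ℕ} (s : US N) {k M Kp : ℕ} (hs : s.Ok k M Kp)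
    (Z' : Finset (Fin N)) (hZ : Z' ⊆ s.V0) : ∑ l, gg s Z' l = ((∑ v ∈ Z', s.w v : ℕ) : ℝ) := by
  obtain ⟨_, _, _, _, _, _, _, hVA⟩ := hu N s k M Kp hs
  have h1 := hVA univ (fun v => if v ∈ Z' then s.w v else 0)
  have h2 : s.VA univ = s.V0 := by
    unfold US.VA; simp
  rw [h2] at h1
  have h3 : ∑ v ∈ s.V0, (if v ∈ Z' then s.w v else 0) = ∑ v ∈ Z', s.w v := by
    rw [← Finset.sum_filter]
    congr 1
    ext x
    simp only [Finset.mem_filter]
    exact ⟨fun h => h.2, fun h => ⟨hZ h, h⟩⟩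
  have h4 : ∀ l, ∑ v ∈ s.un l, (if v ∈ Z' then s.w v else 0) = ∑ v ∈ Z' ∩ s.un l, s.w v := by
    intro l
    rw [← Finset.sum_filter]
    congr 1
    ext x
    simp only [Finset.mem_filter, Finset.mem_inter]
    exact ⟨fun h => ⟨h.2, h.1⟩, fun h => ⟨h.2, h.1⟩⟩
  rw [h3] at h1
  unfold gg
  rw [← Nat.cast_sum, h1]
  congr 1
  exact Finset.sum_congr rfl (fun l _ => (h4 l).symm)

/-- Set of vertices whose unit is in the subsample. -/
noncomputable def sp {N : ℕ} (s : US N) (A1 : Finset (Fin N)) : Finset (Fin N) :=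
  s.V0.filter fun x => s.top x ∈ A1

theorem sp_card (hu : S_USB) {N : ℕ} (s : US N) {k M Kp : ℕ} (hs : s.Ok k M Kp)
    (A1 : Finset (Fin N)) : ((sp s A1).card : ℝ) = ∑ l ∈ A1, ((s.un l).card : ℝ) := by
  obtain ⟨_, _, _, _, _, _, _, hVA⟩ := hu N s k M Kp hs
  have h1 := hVA A1 (fun _ => 1)
  have h2 : s.VA A1 = sp s A1 := rfl
  rw [h2] at h1
  simp only [Finset.sum_const, smul_eq_mul, mul_one] at h1
  rw [h1]
  push_cast
  rfl

/-- The good event. -/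
theorem det (hu : S_USB) (h2D : S_2D) (h2E : S_2E) {N : ℕ} (s : US N) {k M Kp : ℕ}
    (hs : s.Ok k M Kp) {a : ℕ} (ha : 1 ≤ a) {e W δ1 : ℝ} (he : 0 < e) (hW : W = (k : ℝ) * M + 1)
    (Z' : Finset (Fin N)) (hZ : Z' ⊆ s.V0)
    (hZf : ∀ x ∈ s.V0, ∀ y ∈ s.V0, 4 * s.cw Z' x y ≤ 5 * s.d x y)
    (A A1 B : Finset (Fin N))
    (n1 : ¬ ∃ h : Fin N → Fin (Kp + 1 + 1),
      ((univ.filter fun v => (h v : ℕ) ≠ 0).card : ℝ) ≤ δ1 * N ∧
      a * ∑ v ∈ A, F1 s Kp B (fun x => (h x : ℕ)) v + e * N ≤ ∑ v, F1 s Kp B (fun x => (h x : ℕ)) v)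
    (n2 : ¬ ∃ h : Fin N → Fin (Kp + 1 + 1),
      ((univ.filter fun v => (h v : ℕ) ≠ 0).card : ℝ) ≤ δ1 * N ∧
      a * ∑ v ∈ A, F2 s Kp B (fun x => (h x : ℕ)) v + e * N ≤ ∑ v, F2 s Kp B (fun x => (h x : ℕ)) v)
    (n3 : ¬ δ1 * N ≤ ((sp s A1).card : ℝ))
    (n4 : ¬ e / (a * W) * N ≤ (A1.card : ℝ))
    (n5 : ¬ e / (a * W) * N ≤
      ((A.filter fun l => s.exc (s.ZA A) B (c1 Kp s.d (s.hA A A1 (s.ZA A))) l).card : ℝ))
    (n7 : ¬ (∑ v, gg s Z' v) / a + e / a * N ≤ ∑ v ∈ A, gg s Z' v) :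
    ((univ.filter fun l => s.anch (cp Kp s.d B (s.hA A A1 (s.ZA A))) l).card : ℝ) ≤ 4 * e * N ∧
    ((∑ l ∈ univ.filter (fun l => ¬ s.anch (cp Kp s.d B (s.hA A A1 (s.ZA A))) l),
      ∑ v ∈ s.piZ (cp Kp s.d B (s.hA A A1 (s.ZA A))) l, s.w v : ℕ) : ℝ)
      ≤ ((∑ v ∈ Z', s.w v : ℕ) : ℝ) + 4 * e * N := by
  have haR : (1 : ℝ) ≤ a := by exact_mod_cast ha
  have ha0 : (0 : ℝ) < a := by linarith
  have hkM : (0 : ℝ) ≤ (k : ℝ) * (M : ℝ) := by positivity
  have hW1 : 1 ≤ W := by rw [hW]; linarith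
  have hW0 : 0 < W := by linarith
  have hN0 : (0 : ℝ) ≤ N := Nat.cast_nonneg N
  obtain ⟨hZA, _, hpi, _, hun, hpt, _, hVA⟩ := hu N s k M Kp hs
  set h : Fin N → ℕ := s.hA A A1 (s.ZA A) with hh
  have hle : ∀ x, h x < Kp + 1 + 1 := by
    intro x
    rw [hh]
    unfold US.hA
    split_ifs with hx
    · have := hpt (s.ZA A) x hx.1
      omega
    · omega
  set H : Fin N → Fin (Kp + 1 + 1) := fun x => ⟨h x, hle x⟩ with hH
  have hHh : (fun x => (H x : ℕ)) = h := rfl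
  have hsupp : ((univ.filter fun v => (H v : ℕ) ≠ 0).card : ℝ) ≤ δ1 * N := by
    have h1 : (univ.filter fun v => (H v : ℕ) ≠ 0) ⊆ sp s A1 := by
      intro x hx
      rw [Finset.mem_filter] at hx
      have hx2 : h x ≠ 0 := hx.2
      unfold sp
      rw [Finset.mem_filter]
      rw [hh] at hx2
      unfold US.hA at hx2
      by_cases hc : x ∈ s.V0 ∧ s.top x ∈ A ∧ s.top x ∈ A1
      · exact ⟨hc.1, hc.2.2⟩
      · rw [if_neg hc] at hx2
        exact absurd rfl hx2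
    have h2 : ((univ.filter fun v => (H v : ℕ) ≠ 0).card : ℝ) ≤ ((sp s A1).card : ℝ) := by
      exact_mod_cast Finset.card_le_card h1
    push Not at n3
    linarith
  have m1 : ∑ v, F1 s Kp B h v < a * ∑ v ∈ A, F1 s Kp B h v + e * N := by
    by_contra hcon
    push Not at hcon
    exact n1 ⟨H, hsupp, hcon⟩
  have m2 : ∑ v, F2 s Kp B h v < a * ∑ v ∈ A, F2 s Kp B h v + e * N := by
    by_contra hcon
    push Not at hcon
    exact n2 ⟨H, hsupp, hcon⟩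
  push Not at n4 n5 n7
  set E := A.filter fun l => s.exc (s.ZA A) B (c1 Kp s.d h) l with hE
  -- bad units of the sample
  set Bd := (A ∩ A1) ∪ E with hBd
  have hBdA : Bd ⊆ A := by
    rw [hBd]
    apply Finset.union_subset Finset.inter_subset_left
    rw [hE]; exact Finset.filter_subset _ _
  have hBdc : (Bd.card : ℝ) ≤ A1.card + E.card := by
    have h1 : Bd.card ≤ (A ∩ A1).card + E.card := Finset.card_union_le _ _
    have h2 : (A ∩ A1).card ≤ A1.card := Finset.card_le_card Finset.inter_subset_right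
    exact_mod_cast (by omega : Bd.card ≤ A1.card + E.card)
  have hgood : ∀ l ∈ A, l ∉ Bd → ¬ s.anch (cp Kp s.d B h) l ∧
      ∑ v ∈ s.piZ (cp Kp s.d B h) l, s.w v ≤ ∑ v ∈ s.ZA A ∩ s.un l, s.w v := by
    intro l hl hlB
    rw [hBd, Finset.mem_union, not_or] at hlB
    obtain ⟨hl1, hl2⟩ := hlB
    have hlA1 : l ∉ A1 := fun hc => hl1 (Finset.mem_inter.mpr ⟨hl, hc⟩)
    have hlE : ¬ s.exc (s.ZA A) B (c1 Kp s.d (s.hA A A1 (s.ZA A))) l := by
      intro hc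
      apply hl2
      rw [hE, Finset.mem_filter]
      exact ⟨hl, hc⟩
    exact h2D N s k M Kp hs A A1 B l hl hlA1 hlE
  have hc1 : (a : ℝ) * W * A1.card ≤ e * N := by
    have h1 : (A1.card : ℝ) ≤ e / (a * W) * N := n4.le
    calc (a : ℝ) * W * A1.card ≤ a * W * (e / (a * W) * N) := by
          apply mul_le_mul_of_nonneg_left h1; positivity
      _ = e * N := by field_simp
  have hc2 : (a : ℝ) * W * E.card ≤ e * N := by
    have h1 : (E.card : ℝ) ≤ e / (a * W) * N := n5.le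
    calc (a : ℝ) * W * E.card ≤ a * W * (e / (a * W) * N) := by
          apply mul_le_mul_of_nonneg_left h1; positivity
      _ = e * N := by field_simp
  have hBd1 : (a : ℝ) * W * Bd.card ≤ 2 * (e * N) := by
    have h0 : (0 : ℝ) ≤ a * W := by positivity
    nlinarith [mul_le_mul_of_nonneg_left hBdc h0]
  have hBd2 : (a : ℝ) * Bd.card ≤ 2 * (e * N) := by
    have h0 : (0 : ℝ) ≤ a * Bd.card := by positivity
    nlinarith [mul_le_mul_of_nonneg_right hW1 h0]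
  constructor
  · have h1 : ((univ.filter fun l => s.anch (cp Kp s.d B h) l).card : ℝ) = ∑ v, F1 s Kp B h v := by
      unfold F1
      rw [Finset.sum_boole]
    have h2 : ∑ v ∈ A, F1 s Kp B h v ≤ Bd.card := by
      have h3 : ∑ v ∈ Bd, F1 s Kp B h v = ∑ v ∈ A, F1 s Kp B h v := by
        apply Finset.sum_subset hBdA
        intro l hl hlB
        unfold F1
        rw [if_neg (hgood l hl hlB).1]
      rw [← h3]
      calc ∑ v ∈ Bd, F1 s Kp B h v ≤ ∑ v ∈ Bd, (1 : ℝ) :=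
            Finset.sum_le_sum (fun l _ => F1_le s Kp B h l)
        _ = Bd.card := by simp
    rw [h1]
    have h3 : (a : ℝ) * ∑ v ∈ A, F1 s Kp B h v ≤ a * Bd.card :=
      mul_le_mul_of_nonneg_left h2 ha0.le
    have h4 : 0 ≤ e * N := by positivity
    linarith
  · have h1 : ((∑ l ∈ univ.filter (fun l => ¬ s.anch (cp Kp s.d B h) l),
      ∑ v ∈ s.piZ (cp Kp s.d B h) l, s.w v : ℕ) : ℝ) = ∑ v, F2 s Kp B h v := by
      push_cast
      rw [Finset.sum_filter]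
      apply Finset.sum_congr rfl
      intro l _
      unfold F2
      by_cases hc : s.anch (cp Kp s.d B h) l
      · simp [hc]
      · simp [hc]
    have h2 : ∀ l ∈ A, F2 s Kp B h l ≤ gg s (s.ZA A) l + (if l ∈ Bd then W else 0) := by
      intro l hl
      by_cases hlB : l ∈ Bd
      · rw [if_pos hlB]
        have := F2_le hu s hs B h l
        have := gg_nn s (s.ZA A) l
        linarith
      · rw [if_neg hlB, add_zero]
        unfold F2 gg
        rw [if_neg (hgood l hl hlB).1]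
        exact_mod_cast (hgood l hl hlB).2
    have h3 : ∑ l ∈ A, gg s (s.ZA A) l = ((∑ v ∈ s.ZA A, s.w v : ℕ) : ℝ) := by
      have h4 := hVA A (fun v => if v ∈ s.ZA A then s.w v else 0)
      have hsub : s.ZA A ⊆ s.VA A := (hZA A).2.1
      have h5 : ∑ v ∈ s.VA A, (if v ∈ s.ZA A then s.w v else 0) = ∑ v ∈ s.ZA A, s.w v := by
        rw [← Finset.sum_filter]
        congr 1
        ext x
        simp only [Finset.mem_filter]
        exact ⟨fun h => h.2, fun h => ⟨hsub h, h⟩⟩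
      have h6 : ∀ l, ∑ v ∈ s.un l, (if v ∈ s.ZA A then s.w v else 0)
          = ∑ v ∈ s.ZA A ∩ s.un l, s.w v := by
        intro l
        rw [← Finset.sum_filter]
        congr 1
        ext x
        simp only [Finset.mem_filter, Finset.mem_inter]
        exact ⟨fun h => ⟨h.2, h.1⟩, fun h => ⟨h.2, h.1⟩⟩
      rw [h5] at h4
      unfold gg
      rw [← Nat.cast_sum, h4]
      congr 1
      exact Finset.sum_congr rfl (fun l _ => (h6 l).symm)
    have h4 : ∑ l ∈ A, (if l ∈ Bd then W else 0) = Bd.card * W := by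
      rw [← Finset.sum_filter]
      have : A.filter (fun l => l ∈ Bd) = Bd := by
        ext x
        rw [Finset.mem_filter]
        exact ⟨fun h => h.2, fun h => ⟨hBdA h, h⟩⟩
      rw [this]
      simp
    have h5 : ∑ v ∈ A, F2 s Kp B h v ≤ ((∑ v ∈ s.ZA A, s.w v : ℕ) : ℝ) + Bd.card * W := by
      calc ∑ v ∈ A, F2 s Kp B h v
          ≤ ∑ l ∈ A, (gg s (s.ZA A) l + (if l ∈ Bd then W else 0)) := Finset.sum_le_sum h2
        _ = _ := by rw [Finset.sum_add_distrib, h3, h4]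
    have h6 : ((∑ v ∈ s.ZA A, s.w v : ℕ) : ℝ) ≤ ∑ l ∈ A, gg s Z' l := by
      have := h2E N s k M Kp hs A Z' hZf
      unfold gg
      exact_mod_cast this
    have h7 := gg_sum hu s hs Z' hZ
    rw [h1, ← h7]
    set G := ∑ l, gg s Z' l with hG
    set GA := ∑ l ∈ A, gg s Z' l with hGA
    have h8 : (a : ℝ) * GA ≤ G + e * N := by
      have h9 : (a : ℝ) * GA ≤ a * (G / a + e / a * N) :=
        mul_le_mul_of_nonneg_left n7.le ha0.le
      have h10 : (a : ℝ) * (G / a + e / a * N) = G + e * N := by field_simp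
      linarith
    have h11 : (a : ℝ) * ∑ v ∈ A, F2 s Kp B h v ≤ a * (GA + Bd.card * W) :=
      mul_le_mul_of_nonneg_left (by linarith) ha0.le
    have h12 : (a : ℝ) * (GA + Bd.card * W) = a * GA + a * W * Bd.card := by ring
    have h13 : 0 ≤ e * N := by positivity
    linarith

theorem pr_or (hb : S_EXBASIC) {Ω : Type} [Fintype Ω] (P Q : Ω → Prop) (p q : ℝ)
    (hp : pr P ≤ p) (hq : pr Q ≤ q) : pr (fun ω => P ω ∨ Q ω) ≤ p + q := by
  obtain ⟨_, _, _, _, _, _, _, _, hor, _, _, _⟩ := hb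
  exact (hor Ω P Q).trans (add_le_add hp hq)

theorem pr_mono (hb : S_EXBASIC) {Ω : Type} [Fintype Ω] (P Q : Ω → Prop) (p : ℝ)
    (hPQ : ∀ ω, P ω → Q ω) (hp : pr Q ≤ p) : pr P ≤ p := by
  obtain ⟨_, _, _, _, _, _, _, _, _, hm, _, _⟩ := hb
  exact (hm Ω P Q hPQ).trans hp

theorem ex_zs_card (hES : S_EXSUM) (N q : ℕ) (hq : 1 ≤ q) (g : Fin N → ℝ) (m : ℝ)
    (hg : ∑ v, g v ≤ m) : ex (fun ω : Fin N → Fin q => ∑ v ∈ zs ω, g v) ≤ m / q := by
  rw [hES N q hq g]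
  have hq0 : (0 : ℝ) < q := by exact_mod_cast hq
  exact (div_le_div_iff_of_pos_right hq0).mpr hg

theorem exp_small (c p : ℝ) (hc : 0 < c) (hp : 0 < p) :
    ∃ N2 : ℕ, ∀ N : ℕ, N2 ≤ N → Real.exp (-(c * N)) ≤ p := by
  obtain ⟨N2, hN2⟩ := exists_nat_ge (-Real.log p / c)
  refine ⟨N2, fun N hN => ?_⟩
  rw [← Real.le_log_iff_exp_le hp]
  have h1 : (N2 : ℝ) ≤ N := by exact_mod_cast hN
  have h2 : -Real.log p / c ≤ N := hN2.trans h1
  rw [div_le_iff₀ hc] at h2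
  linarith

theorem t_ST2 : S_EXBASIC → S_AVOID → S_EXSUM → S_CONC → S_USB → S_CAPS → S_2A → S_2B → S_2C →
    S_2D → S_2E → S_ST2 := by
  intro hb _ hES hconc hu hcaps h2A h2B h2C h2D h2E
  intro k M Kp a bmin ε pf ha hε hpf
  have haR : (1 : ℝ) ≤ a := by exact_mod_cast ha
  have ha0 : (0 : ℝ) < a := by linarith
  obtain ⟨W, hW⟩ : ∃ W : ℝ, W = (k : ℝ) * M + 1 := ⟨_, rfl⟩
  have hkM : (0 : ℝ) ≤ (k : ℝ) * (M : ℝ) := by positivity
  have hW1 : 1 ≤ W := by rw [hW]; linarith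
  have hW0 : 0 < W := by linarith
  obtain ⟨e, he⟩ : ∃ e : ℝ, e = min (ε / 4) 1 := ⟨_, rfl⟩
  have he0 : 0 < e := by rw [he]; exact lt_min (by linarith) one_pos
  have he1 : e ≤ 1 := by rw [he]; exact min_le_right _ _
  have heε : 4 * e ≤ ε := by
    have : e ≤ ε / 4 := by rw [he]; exact min_le_left _ _
    linarith
  obtain ⟨p, hp⟩ : ∃ p : ℝ, p = pf / 7 := ⟨_, rfl⟩
  have hp0 : 0 < p := by rw [hp]; positivity
  obtain ⟨δ1, hδ1, N1, hN1⟩ := h2A (Kp + 1) a W e p ha hW0 he0 hp0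
  obtain ⟨t, ht⟩ := exists_nat_ge (max 1 (max (1 / (p * δ1)) (a * W / (p * e))))
  have ht1 : (1 : ℝ) ≤ t := (le_max_left _ _).trans ht
  have ht2 : 1 / (p * δ1) ≤ t := (le_max_left _ _).trans ((le_max_right _ _).trans ht)
  have ht3 : a * W / (p * e) ≤ t := (le_max_right _ _).trans ((le_max_right _ _).trans ht)
  have ht0 : (0 : ℝ) < t := by linarith
  have ht1N : 1 ≤ t := by exact_mod_cast ht1
  obtain ⟨b, hb'⟩ := exists_nat_ge (max (max 1 (bmin : ℝ)) (a * W * ((Kp + 1) * t) / (p * e)))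
  have hb1 : (1 : ℝ) ≤ b := (le_max_left _ _).trans ((le_max_left _ _).trans hb')
  have hb2 : (bmin : ℝ) ≤ b := (le_max_right _ _).trans ((le_max_left _ _).trans hb')
  have hb3 : a * W * ((Kp + 1) * t) / (p * e) ≤ b := (le_max_right _ _).trans hb'
  have hb0 : (0 : ℝ) < b := by linarith
  have hb1N : 1 ≤ b := by exact_mod_cast hb1
  have hb2N : bmin ≤ b := by exact_mod_cast hb2
  obtain ⟨C, hC⟩ : ∃ C : ℝ, C = ((Kp : ℝ) + 1) * b / p := ⟨_, rfl⟩
  have hC0 : 0 < C := by rw [hC]; positivity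
  obtain ⟨N2, hN2⟩ := exp_small ((e / a) ^ 2 / (4 * W ^ 2)) p (by positivity) hp0
  refine ⟨t, b, C, max (max N1 N2) 1, ht1N, hb1N, hb2N, hC0, ?_⟩
  intro N hN s hs Z' hZ hZf
  have hNN1 : N1 ≤ N := (le_max_left _ _).trans ((le_max_left _ _).trans hN)
  have hNN2 : N2 ≤ N := (le_max_right _ _).trans ((le_max_left _ _).trans hN)
  have hN1' : 1 ≤ N := (le_max_right _ _).trans hN
  have hNR : (1 : ℝ) ≤ N := by exact_mod_cast hN1'
  have hN0 : (0 : ℝ) < N := by linarith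
  -- the events
  have q1 : pr (fun ω : Om2 N a t b => ∃ h : Fin N → Fin (Kp + 1 + 1),
      ((univ.filter fun v => (h v : ℕ) ≠ 0).card : ℝ) ≤ δ1 * N ∧
      a * ∑ v ∈ zs ω.1, F1 s Kp (zs ω.2.2) (fun x => (h x : ℕ)) v + e * N
        ≤ ∑ v, F1 s Kp (zs ω.2.2) (fun x => (h x : ℕ)) v) ≤ p := by
    apply pr_fub2 hb (fun (w1 : Fin N → Fin a) (w : (Fin N → Fin t) × (Fin N → Fin b)) =>
      ∃ h : Fin N → Fin (Kp + 1 + 1),
      ((univ.filter fun v => (h v : ℕ) ≠ 0).card : ℝ) ≤ δ1 * N ∧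
      a * ∑ v ∈ zs w1, F1 s Kp (zs w.2) (fun x => (h x : ℕ)) v + e * N
        ≤ ∑ v, F1 s Kp (zs w.2) (fun x => (h x : ℕ)) v) p hp0.le
    intro w
    exact hN1 N hNN1 (fun h v => F1 s Kp (zs w.2) (fun x => (h x : ℕ)) v)
      (fun h v => ⟨F1_nn _ _ _ _ _, (F1_le _ _ _ _ _).trans hW1⟩)
  have q2 : pr (fun ω : Om2 N a t b => ∃ h : Fin N → Fin (Kp + 1 + 1),
      ((univ.filter fun v => (h v : ℕ) ≠ 0).card : ℝ) ≤ δ1 * N ∧
      a * ∑ v ∈ zs ω.1, F2 s Kp (zs ω.2.2) (fun x => (h x : ℕ)) v + e * N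
        ≤ ∑ v, F2 s Kp (zs ω.2.2) (fun x => (h x : ℕ)) v) ≤ p := by
    apply pr_fub2 hb (fun (w1 : Fin N → Fin a) (w : (Fin N → Fin t) × (Fin N → Fin b)) =>
      ∃ h : Fin N → Fin (Kp + 1 + 1),
      ((univ.filter fun v => (h v : ℕ) ≠ 0).card : ℝ) ≤ δ1 * N ∧
      a * ∑ v ∈ zs w1, F2 s Kp (zs w.2) (fun x => (h x : ℕ)) v + e * N
        ≤ ∑ v, F2 s Kp (zs w.2) (fun x => (h x : ℕ)) v) p hp0.le
    intro w
    exact hN1 N hNN1 (fun h v => F2 s Kp (zs w.2) (fun x => (h x : ℕ)) v)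
      (fun h v => ⟨F2_nn _ _ _ _ _, by rw [hW]; exact F2_le hu s hs _ _ _⟩)
  have q3 : pr (fun ω : Om2 N a t b => δ1 * N ≤ ((sp s (zs ω.2.1)).card : ℝ)) ≤ p := by
    apply pr_fub1 hb (fun (_ : Fin N → Fin a) (w : (Fin N → Fin t) × (Fin N → Fin b)) =>
      δ1 * N ≤ ((sp s (zs w.1)).card : ℝ)) p hp0.le
    intro _
    apply pr_fub2 hb (fun (w2 : Fin N → Fin t) (_ : Fin N → Fin b) =>
      δ1 * N ≤ ((sp s (zs w2)).card : ℝ)) p hp0.le
    intro _
    apply pr_markov hb (fun w2 : Fin N → Fin t => ((sp s (zs w2)).card : ℝ)) (δ1 * N) (N / t) p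
      (by positivity) (fun _ => Nat.cast_nonneg _)
    · have h1 : (fun w2 : Fin N → Fin t => ((sp s (zs w2)).card : ℝ)) =
          fun w2 => ∑ l ∈ zs w2, ((s.un l).card : ℝ) := by
        funext w2
        exact sp_card hu s hs (zs w2)
      rw [h1]
      apply ex_zs_card hES N t ht1N
      have h2 := sp_card hu s hs univ
      rw [← h2]
      have h3 : (sp s univ).card ≤ N := by
        calc (sp s univ).card ≤ (univ : Finset (Fin N)).card := Finset.card_le_univ _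
          _ = N := by simp
      exact_mod_cast h3
    · rw [div_le_iff₀ ht0]
      rw [div_le_iff₀ (by positivity)] at ht2
      have h4 : N * 1 ≤ (N : ℝ) * (t * (p * δ1)) := mul_le_mul_of_nonneg_left ht2 hN0.le
      calc (N : ℝ) = N * 1 := by ring
        _ ≤ N * (t * (p * δ1)) := h4
        _ = p * (δ1 * N) * t := by ring
  have q4 : pr (fun ω : Om2 N a t b => e / (a * W) * N ≤ ((zs ω.2.1).card : ℝ)) ≤ p := by
    apply pr_fub1 hb (fun (_ : Fin N → Fin a) (w : (Fin N → Fin t) × (Fin N → Fin b)) =>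
      e / (a * W) * N ≤ ((zs w.1).card : ℝ)) p hp0.le
    intro _
    apply pr_fub2 hb (fun (w2 : Fin N → Fin t) (_ : Fin N → Fin b) =>
      e / (a * W) * N ≤ ((zs w2).card : ℝ)) p hp0.le
    intro _
    apply pr_markov hb (fun w2 : Fin N → Fin t => ((zs w2).card : ℝ)) (e / (a * W) * N) (N / t) p
      (by positivity) (fun _ => Nat.cast_nonneg _)
    · have h1 : (fun w2 : Fin N → Fin t => ((zs w2).card : ℝ)) =
          fun w2 => ∑ l ∈ zs w2, (1 : ℝ) := by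
        funext w2
        simp
      rw [h1]
      apply ex_zs_card hES N t ht1N
      simp
    · rw [div_le_iff₀ ht0]
      rw [div_le_iff₀ (by positivity)] at ht3
      have h4 : a * W * (N / (a * W)) ≤ t * (p * e) * (N / (a * W)) :=
        mul_le_mul_of_nonneg_right ht3 (by positivity)
      have h5 : a * W * (N / (a * W)) = (N : ℝ) := by field_simp
      have h6 : t * (p * e) * (N / (a * W)) = p * (e / (a * W) * N) * t := by ring
      linarith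
  have q5 : pr (fun ω : Om2 N a t b => e / (a * W) * N ≤
      (((zs ω.1).filter fun l => s.exc (s.ZA (zs ω.1)) (zs ω.2.2)
        (c1 Kp s.d (s.hA (zs ω.1) (zs ω.2.1) (s.ZA (zs ω.1)))) l).card : ℝ)) ≤ p := by
    apply pr_fub1 hb (fun (w1 : Fin N → Fin a) (w : (Fin N → Fin t) × (Fin N → Fin b)) =>
      e / (a * W) * N ≤ (((zs w1).filter fun l => s.exc (s.ZA (zs w1)) (zs w.2)
        (c1 Kp s.d (s.hA (zs w1) (zs w.1) (s.ZA (zs w1)))) l).card : ℝ)) p hp0.le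
    intro w1
    apply pr_markov hb (fun w : (Fin N → Fin t) × (Fin N → Fin b) =>
      (((zs w1).filter fun l => s.exc (s.ZA (zs w1)) (zs w.2)
        (c1 Kp s.d (s.hA (zs w1) (zs w.1) (s.ZA (zs w1)))) l).card : ℝ)) (e / (a * W) * N)
      (N * (Kp + 1) * t / b) p (by positivity) (fun _ => Nat.cast_nonneg _)
    · exact h2B N s k M Kp t b hs ht1N hb1N (zs w1) (s.ZA (zs w1))
    · rw [div_le_iff₀ hb0]
      rw [div_le_iff₀ (by positivity)] at hb3
      have h4 : a * W * ((Kp + 1) * t) * (N / (a * W)) ≤ b * (p * e) * (N / (a * W)) :=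
        mul_le_mul_of_nonneg_right hb3 (by positivity)
      have h5 : a * W * ((Kp + 1) * t) * (N / (a * W)) = (N : ℝ) * (Kp + 1) * t := by
        field_simp
      have h6 : b * (p * e) * (N / (a * W)) = p * (e / (a * W) * N) * b := by ring
      linarith
  have q6 : pr (fun ω : Om2 N a t b => C * N ≤
      ∑ y, ((Cd s.d (s.k1 Kp (zs ω.1) (zs ω.2.1))
          (s.k2 Kp (zs ω.1) (zs ω.2.1) (zs ω.2.2)) y).card : ℝ)) ≤ p := by
    apply pr_fub1 hb (fun (w1 : Fin N → Fin a) (w : (Fin N → Fin t) × (Fin N → Fin b)) =>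
      C * N ≤ ∑ y, ((Cd s.d (s.k1 Kp (zs w1) (zs w.1))
          (s.k2 Kp (zs w1) (zs w.1) (zs w.2)) y).card : ℝ)) p hp0.le
    intro w1
    apply pr_fub1 hb (fun (w2 : Fin N → Fin t) (w3 : Fin N → Fin b) =>
      C * N ≤ ∑ y, ((Cd s.d (s.k1 Kp (zs w1) (zs w2))
          (s.k2 Kp (zs w1) (zs w2) (zs w3)) y).card : ℝ)) p hp0.le
    intro w2
    apply pr_markov hb (fun w3 : Fin N → Fin b =>
      ∑ y, ((Cd s.d (s.k1 Kp (zs w1) (zs w2))
          (s.k2 Kp (zs w1) (zs w2) (zs w3)) y).card : ℝ)) (C * N)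
      (N * (Kp + 1) * b) p (by positivity)
      (fun _ => Finset.sum_nonneg (fun _ _ => Nat.cast_nonneg _))
    · exact h2C N Kp b s.d (s.k1 Kp (zs w1) (zs w2)) hb1N
        (fun x => ((hcaps N Kp s.d).1 _ x).1)
    · rw [hC]
      have : p * ((Kp + 1) * b / p * N) = N * (Kp + 1) * b := by field_simp
      linarith
  have q7 : pr (fun ω : Om2 N a t b => (∑ v, gg s Z' v) / a + e / a * N
      ≤ ∑ v ∈ zs ω.1, gg s Z' v) ≤ p := by
    apply pr_fub2 hb (fun (w1 : Fin N → Fin a) (_ : (Fin N → Fin t) × (Fin N → Fin b)) =>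
      (∑ v, gg s Z' v) / a + e / a * N ≤ ∑ v ∈ zs w1, gg s Z' v) p hp0.le
    intro _
    have h1 := hconc N a ha (gg s Z') W (e / a) hW0 (fun v => by
      rw [abs_of_nonneg (gg_nn s Z' v), hW]; exact gg_le hu s hs Z' v) (by positivity)
      (by
        have : e / a ≤ e := div_le_self he0.le haR
        linarith)
    refine h1.trans ?_
    have h2 := hN2 N hNN2
    have h3 : (e / a) ^ 2 / (4 * W ^ 2) * N = (e / a) ^ 2 * N / (4 * W ^ 2) := by ring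
    rw [h3] at h2
    exact h2
  have q := pr_or hb _ _ _ _ q1 (pr_or hb _ _ _ _ q2 (pr_or hb _ _ _ _ q3
    (pr_or hb _ _ _ _ q4 (pr_or hb _ _ _ _ q5 (pr_or hb _ _ _ _ q6 q7)))))
  have hsum : p + (p + (p + (p + (p + (p + p))))) = pf := by rw [hp]; ring
  rw [hsum] at q
  apply pr_mono hb _ _ _ ?_ q
  intro ω hω
  by_contra hcon
  simp only [not_or] at hcon
  apply hω
  obtain ⟨n1, n2, n3, n4, n5, n6, n7⟩ := hcon
  have hd := det hu h2D h2E s hs ha he0 hW Z' hZ hZf (zs ω.1) (zs ω.2.1) (zs ω.2.2)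
    n1 n2 n3 n4 n5 n7
  have h4 : 4 * e * N ≤ ε * N := mul_le_mul_of_nonneg_right heε hN0.le
  refine ⟨hd.1.trans h4, ?_, ?_⟩
  · refine hd.2.trans ?_
    linarith
  · push Not at n6
    exact n6.le

end Pool.Agent.H388.T.ST2
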